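import Mathlib

set_option autoImplicit false

namespace Pool.Agent.Results.MP_af8792_co.Quadratic

/-- A cell of the grid with `m` rows and `n` columns. -/
abbrev Cell (m n : ℕ) := Fin m × Fin n

/-- A configuration: a set of 1-edges (cells) and a set of 2-edges `(i,j;k,l)`, stored as the
pair of cells `((i,j),(k,l))`. -/
structure Config (m n : ℕ) where
  E1 : Finset (Cell m n)
  E2 : Finset (Cell m n × Cell m n)

/-- A cell is occupied by a 1-edge or by a 2-edge. -/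
def Occ {m n : ℕ} (G : Config m n) (c : Cell m n) : Prop :=
  c ∈ G.E1 ∨ ∃ e ∈ G.E2, c = e.1 ∨ c = e.2

/-- The two cells of a 2-edge differ in row and in column, and no cell is occupied by two
different edges. -/
def Valid {m n : ℕ} (G : Config m n) : Prop :=
  (∀ e ∈ G.E2, e.1.1 ≠ e.2.1 ∧ e.1.2 ≠ e.2.2) ∧
  (∀ c ∈ G.E1, ∀ e ∈ G.E2, c ≠ e.1 ∧ c ≠ e.2) ∧
  (∀ e ∈ G.E2, ∀ f ∈ G.E2, e ≠ f → e.1 ≠ f.1 ∧ e.1 ≠ f.2 ∧ e.2 ≠ f.1 ∧ e.2 ≠ f.2)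

/-- `G` contains a generalized `C₄`-cycle (conditions 1, 2, 3 of the problem). -/
def HasGenC4 {m n : ℕ} (G : Config m n) : Prop :=
  (∃ (i k : Fin m) (j l : Fin n), i ≠ k ∧ j ≠ l ∧
    (i, j) ∈ G.E1 ∧ (i, l) ∈ G.E1 ∧ (k, j) ∈ G.E1 ∧ (k, l) ∈ G.E1) ∨
  (∃ e ∈ G.E2, Occ G (e.1.1, e.2.2) ∧ Occ G (e.2.1, e.1.2)) ∨
  (∃ e ∈ G.E2, ∃ (k : Fin m) (l : Fin n),
    [(k, l), (k, e.1.2), (k, e.2.2), (e.1.1, l), (e.2.1, l)].Nodup ∧
    ∀ c ∈ [(k, l), (k, e.1.2), (k, e.2.2), (e.1.1, l), (e.2.1, l)], Occ G c)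

/-- The double Zarankiewicz number. -/
noncomputable def z2 (m n : ℕ) : ℕ :=
  sSup {N | ∃ G : Config m n, Valid G ∧ ¬ HasGenC4 G ∧ G.E1.card + G.E2.card = N}

def ed (m n : ℕ) (p : Fin (m / 2) × Fin (n / 2)) : Cell m n × Cell m n :=
  ((⟨p.1, by have := p.1.2; omega⟩, ⟨p.2, by have := p.2.2; omega⟩),
   (⟨p.1 + m / 2, by have := p.1.2; omega⟩, ⟨p.2 + n / 2, by have := p.2.2; omega⟩))

lemma ed_inj (m n : ℕ) : Function.Injective (ed m n) := by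
  rintro ⟨a, b⟩ ⟨c, d⟩ h
  simp only [ed, Prod.mk.injEq, Fin.mk.injEq] at h
  ext
  · exact h.1.1
  · exact h.1.2

def G0 (m n : ℕ) : Config m n := ⟨∅, Finset.univ.image (ed m n)⟩

lemma occ_G0 {m n : ℕ} {c : Cell m n} (h : Occ (G0 m n) c) :
    (c.1.1 < m / 2 ↔ c.2.1 < n / 2) := by
  rcases h with h | ⟨e, he, h⟩
  · simp [G0] at h
  · obtain ⟨p, -, rfl⟩ := Finset.mem_image.1 he
    have h1 := p.1.2
    have h2 := p.2.2
    rcases h with rfl | rfl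
    · simp only [ed]; omega
    · simp only [ed]; omega

lemma valid_G0 (m n : ℕ) : Valid (G0 m n) := by
  refine ⟨?_, ?_, ?_⟩
  · intro e he
    obtain ⟨p, -, rfl⟩ := Finset.mem_image.1 he
    have h1 := p.1.2
    have h2 := p.2.2
    simp only [ed, ne_eq, Fin.mk.injEq]
    omega
  · intro c hc
    simp [G0] at hc
  · intro e he f hf hne
    obtain ⟨p, -, rfl⟩ := Finset.mem_image.1 he
    obtain ⟨q, -, rfl⟩ := Finset.mem_image.1 hf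
    have h1 := p.1.2
    have h2 := p.2.2
    have h3 := q.1.2
    have h4 := q.2.2
    have hpq : ¬ (p.1.1 = q.1.1 ∧ p.2.1 = q.2.1) := by
      rintro ⟨a, b⟩
      exact hne (by rw [show p = q from Prod.ext (Fin.ext a) (Fin.ext b)])
    simp only [ed, ne_eq, Prod.mk.injEq, Fin.mk.injEq]
    omega

lemma free_G0 (m n : ℕ) : ¬ HasGenC4 (G0 m n) := by
  rintro (⟨i, k, j, l, -, -, h, -⟩ | ⟨e, he, h1, -⟩ | ⟨e, he, k, l, -, h⟩)
  · simp [G0] at h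
  · obtain ⟨p, -, rfl⟩ := Finset.mem_image.1 he
    have h3 := occ_G0 h1
    have h1 := p.1.2
    have h2 := p.2.2
    simp only [ed] at h3
    omega
  · obtain ⟨p, -, rfl⟩ := Finset.mem_image.1 he
    have h3 := occ_G0 (h (k, (ed m n p).1.2) (by simp))
    have h4 := occ_G0 (h (k, (ed m n p).2.2) (by simp))
    have h1 := p.1.2
    have h2 := p.2.2
    simp only [ed] at h3 h4
    omega

lemma lower (m n : ℕ) : (m / 2) * (n / 2) ≤ z2 m n := by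
  apply le_csSup
  · refine ⟨Fintype.card (Cell m n) + Fintype.card (Cell m n × Cell m n), ?_⟩
    rintro N ⟨G, -, -, rfl⟩
    exact Nat.add_le_add (Finset.card_le_univ _) (Finset.card_le_univ _)
  · refine ⟨G0 m n, valid_G0 m n, free_G0 m n, ?_⟩
    simp [G0, Finset.card_image_of_injective _ (ed_inj m n)]

theorem result :
    (∀ m n : ℕ, (m / 2) * (n / 2) ≤ z2 m n) ∧
    ¬ ∃ C : ℝ, ∀ m n : ℕ, 2 ≤ m → 2 ≤ n →
      (z2 m n : ℝ) ≤ C * ((m : ℝ) * Real.sqrt n + n) := by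
  refine ⟨lower, ?_⟩
  rintro ⟨C, hC⟩
  obtain ⟨t, ht⟩ := exists_nat_gt (6 * |C| + 1)
  have hC0 : 0 ≤ |C| := abs_nonneg C
  have ht1 : (1 : ℝ) < t := by linarith
  have ht1' : 1 < t := by exact_mod_cast ht1
  have h4 : 2 ≤ 4 * t ^ 2 := by nlinarith
  have h := hC (4 * t ^ 2) (4 * t ^ 2) h4 h4
  have hl := lower (4 * t ^ 2) (4 * t ^ 2)
  have e1 : 4 * t ^ 2 / 2 = 2 * t ^ 2 := by omega
  rw [e1] at hl
  have hl' : ((2 * t ^ 2 * (2 * t ^ 2) : ℕ) : ℝ) ≤ z2 (4 * t ^ 2) (4 * t ^ 2) := by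
    exact_mod_cast hl
  have hs : Real.sqrt ((4 * t ^ 2 : ℕ) : ℝ) = 2 * t := by
    rw [show ((4 * t ^ 2 : ℕ) : ℝ) = (2 * (t : ℝ)) ^ 2 by push_cast; ring]
    exact Real.sqrt_sq (by linarith)
  rw [hs] at h
  push_cast at h hl'
  have hpos : (0 : ℝ) < (t : ℝ) ^ 2 := by positivity
  have h5 : C * (4 * (t : ℝ) ^ 2 * (2 * t) + 4 * (t : ℝ) ^ 2) ≤
      |C| * (4 * (t : ℝ) ^ 2 * (2 * t) + 4 * (t : ℝ) ^ 2) :=
    mul_le_mul_of_nonneg_right (le_abs_self C) (by positivity)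
  have h6 : 4 * (t : ℝ) ^ 2 * (t : ℝ) ^ 2 ≤ 4 * (t : ℝ) ^ 2 * (|C| * (2 * t + 1)) := by
    nlinarith
  have h7 : (t : ℝ) ^ 2 ≤ |C| * (2 * t + 1) := le_of_mul_le_mul_left h6 (by positivity)
  nlinarith

end Pool.Agent.Results.MP_af8792_co.Quadratic
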